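import Pool.Agent.H93.CP.Targets

/-!
# MP_5607ba_lc, board cpt_modules, row DCO: from the Cantor space to double cosets
-/

set_option autoImplicit false

open Set Filter Topology Pool.Agent.H93.CP

namespace Pool.Agent.H35.CPT

section

variable {Γ : Type} [Group Γ] [MulAction Γ (ℕ → Bool)]

/-- the point of an element of the product -/
private def Ph (x : Γ × HC (ℕ → Bool) Unit) : ℕ → Bool := x.1⁻¹ • x.2.h (fun _ => false)

/-- the graph -/
private def HH (ρ : Γ →* HC (ℕ → Bool) Unit) : Subgroup (Γ × HC (ℕ → Bool) Unit) :=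
  MonoidHom.eqLocus (MonoidHom.snd Γ (HC (ℕ → Bool) Unit))
    (ρ.comp (MonoidHom.fst Γ (HC (ℕ → Bool) Unit)))

/-- the stabiliser of the point zero -/
private def KK : Subgroup (Γ × HC (ℕ → Bool) Unit) :=
  (MulAction.stabilizer (HC (ℕ → Bool) Unit) (fun _ : ℕ => false)).comap
    (MonoidHom.snd Γ (HC (ℕ → Bool) Unit))

omit [MulAction Γ (ℕ → Bool)] in
private theorem mem_HH (ρ : Γ →* HC (ℕ → Bool) Unit) (x : Γ × HC (ℕ → Bool) Unit) :
    x ∈ HH ρ ↔ x.2 = ρ x.1 := Iff.rfl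

omit [MulAction Γ (ℕ → Bool)] in
private theorem mem_KK (x : Γ × HC (ℕ → Bool) Unit) :
    x ∈ (KK : Subgroup (Γ × HC (ℕ → Bool) Unit)) ↔ x.2.h (fun _ => false) = fun _ => false :=
  Iff.rfl

private theorem ph_mul (ρ : Γ →* HC (ℕ → Bool) Unit) (hρ : ∀ γ y, (ρ γ).h y = γ • y)
    (h x k : Γ × HC (ℕ → Bool) Unit) (hh : h ∈ HH ρ)
    (hk : k ∈ (KK : Subgroup (Γ × HC (ℕ → Bool) Unit))) :
    Ph (h * x * k) = k.1⁻¹ • Ph x := by
  rw [mem_HH] at hh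
  rw [mem_KK] at hk
  unfold Ph
  change (h.1 * x.1 * k.1)⁻¹ • (h.2 * x.2 * k.2).h (fun _ => false) =
    k.1⁻¹ • x.1⁻¹ • x.2.h (fun _ => false)
  rw [HC.mul_h, HC.mul_h, hk, hh, hρ, mul_inv_rev, mul_inv_rev, mul_smul, mul_smul,
    inv_smul_smul]

private theorem ph_conv (ρ : Γ →* HC (ℕ → Bool) Unit) (hρ : ∀ γ y, (ρ γ).h y = γ • y)
    (x x' : Γ × HC (ℕ → Bool) Unit) (k : Γ) (h : Ph x' = k • Ph x) :
    ∃ a ∈ HH ρ, ∃ b ∈ (KK : Subgroup (Γ × HC (ℕ → Bool) Unit)), a * x * b = x' := by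
  obtain ⟨g, l⟩ := x
  obtain ⟨g', l'⟩ := x'
  have h1 : l'.h (fun _ => false) = (g' * k * g⁻¹) • l.h (fun _ => false) := by
    have h2 : g'⁻¹ • l'.h (fun _ => false) = k • g⁻¹ • l.h (fun _ => false) := h
    rw [inv_smul_eq_iff] at h2
    rw [h2, mul_smul, mul_smul]
  refine ⟨(g' * k * g⁻¹, ρ (g' * k * g⁻¹)), rfl,
    (k⁻¹, l⁻¹ * (ρ (g' * k * g⁻¹))⁻¹ * l'), ?_, ?_⟩
  · rw [mem_KK]
    change (l⁻¹ * (ρ (g' * k * g⁻¹))⁻¹ * l').h (fun _ => false) = fun _ => false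
    rw [← map_inv, HC.mul_h, HC.mul_h, h1, hρ, inv_smul_smul, HC.inv_h,
      Homeomorph.symm_apply_apply]
  · refine Prod.ext ?_ ?_
    · change g' * k * g⁻¹ * g * k⁻¹ = g'
      group
    · change ρ (g' * k * g⁻¹) * l * (l⁻¹ * (ρ (g' * k * g⁻¹))⁻¹ * l') = l'
      generalize ρ (g' * k * g⁻¹) = r
      group

end

private theorem nonArch_prod (A B : Type) [Group A] [TopologicalSpace A] [Group B]
    [TopologicalSpace B] (hA : NonArch A) (hB : NonArch B) : NonArch (A × B) := by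
  intro U hU
  rw [show (1 : A × B) = (1, 1) from rfl, mem_nhds_prod_iff] at hU
  obtain ⟨u, hu, v, hv, huv⟩ := hU
  obtain ⟨V, hV, hVu⟩ := hA u hu
  obtain ⟨W, hW, hWv⟩ := hB v hv
  refine ⟨V.prod W, ?_, ?_⟩
  · rw [Subgroup.coe_prod]
    exact hV.prod hW
  · rw [Subgroup.coe_prod]
    exact (Set.prod_mono hVu hWv).trans huv

theorem pf_DCO (hHOM : T_HOM) (hHTG : T_HTG) (hHPO : T_HPO) (hHNA : T_HNA) (hXOR : T_XOR) :
    T_DCO := by
  intro Γ tΓ gΓ itΓ pΓ aΓ hcont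
  obtain ⟨ρ, hρc, hρ⟩ := hHOM Γ (ℕ → Bool) hcont
  obtain ⟨hTG, hev, -⟩ := hHTG (ℕ → Bool) Unit
  have hP : PolishSpace (HC (ℕ → Bool) Unit) := hHPO (ℕ → Bool) Unit
  obtain ⟨τ, hτc, hτ⟩ := hXOR
  have hPc : Continuous (Ph : Γ × HC (ℕ → Bool) Unit → (ℕ → Bool)) := by
    have h1 : Continuous fun x : Γ × HC (ℕ → Bool) Unit => x.2.h (fun _ => false) :=
      hev.comp (continuous_snd.prodMk continuous_const)
    exact hcont.comp ((continuous_fst.inv).prodMk h1)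
  have hs : ∀ p : ℕ → Bool, Ph ((1, τ p) : Γ × HC (ℕ → Bool) Unit) = p := by
    intro p
    change (1 : Γ)⁻¹ • (τ p).h (fun _ => false) = p
    rw [hτ, inv_one, one_smul]
  let mL : MeasurableSpace (Γ × HC (ℕ → Bool) Unit) := borel _
  have bL : BorelSpace (Γ × HC (ℕ → Bool) Unit) := ⟨rfl⟩
  refine ⟨Γ × HC (ℕ → Bool) Unit, inferInstance, inferInstance, inferInstance, inferInstance,
    mL, bL, HH ρ, KK, ?_, ?_, ?_, ?_, ?_⟩
  · exact isClosed_eq continuous_snd (hρc.comp continuous_fst)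
  · exact isClosed_eq (hev.comp (continuous_snd.prodMk continuous_const)) continuous_const
  · intro hN
    refine nonArch_prod _ _ hN (hHNA (ℕ → Bool) Unit ?_)
    intro U hU
    exact ⟨⊤, isOpen_univ, fun x _ => mem_of_mem_nhds hU⟩
  · constructor
    · rintro ⟨A, hA, h⟩
      refine ⟨Ph '' A, hA.image _, fun p => ?_⟩
      obtain ⟨a, ha, k, hk, hm⟩ := h (1, τ p)
      refine ⟨k.1⁻¹, ?_⟩
      rw [← hs p, ← ph_mul ρ hρ a _ k ha hk]
      exact ⟨_, hm, rfl⟩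
    · rintro ⟨A, hA, h⟩
      refine ⟨(fun p => (1, τ p)) '' A, hA.image _, fun x => ?_⟩
      obtain ⟨g, hg⟩ := h (Ph x)
      obtain ⟨a, ha, k, hk, hm⟩ := ph_conv ρ hρ x (1, τ (g • Ph x)) g (hs _)
      refine ⟨a, ha, k, hk, ?_⟩
      rw [hm]
      exact ⟨_, hg, rfl⟩
  · constructor
    · rintro ⟨f, hf, h⟩
      refine ⟨fun u => Ph (f u), hPc.measurable.comp hf, fun u v huv g hg => ?_⟩
      obtain ⟨a, ha, k, hk, hm⟩ := ph_conv ρ hρ (f u) (f v) g hg.symm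
      exact h u v huv a ha k hk hm
    · rintro ⟨f, hf, h⟩
      have hc : Continuous fun p : ℕ → Bool => ((1, τ p) : Γ × HC (ℕ → Bool) Unit) :=
        continuous_const.prodMk hτc
      refine ⟨fun u => (1, τ (f u)), hc.measurable.comp hf, fun u v huv a ha k hk hm => ?_⟩
      have h1 := ph_mul ρ hρ a (1, τ (f u)) k ha hk
      rw [hm, hs, hs] at h1
      exact h u v huv k.1⁻¹ h1.symm

end Pool.Agent.H35.CPT
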